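import Mathlib

/-!
# MP_1e1ce6_co : chromatic polynomials of induced subgraphs and their basic identities
-/

namespace Pool.Agent.Work.MP_1e1ce6_co.Brown

open Polynomial Finset

variable {V : Type*}

/-- The graph obtained from `G` by joining `u` to all vertices of `C`. -/
def J (G : SimpleGraph V) (u : V) (C : Finset V) : SimpleGraph V where
  Adj a b := G.Adj a b ∨ (a ≠ b ∧ ((a = u ∧ b ∈ C) ∨ (b = u ∧ a ∈ C)))
  symm := ⟨by
    intro a b h
    rcases h with h | ⟨h, h'⟩
    · exact Or.inl h.symm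
    · exact Or.inr ⟨h.symm, h'.symm⟩⟩
  loopless := ⟨by
    intro a h
    rcases h with h | h
    · exact h.ne rfl
    · exact h.1 rfl⟩

theorem J_adj (G : SimpleGraph V) (u : V) (C : Finset V) (a b : V) :
    (J G u C).Adj a b ↔ G.Adj a b ∨ (a ≠ b ∧ ((a = u ∧ b ∈ C) ∨ (b = u ∧ a ∈ C))) := Iff.rfl

/-- `f` is a proper colouring of the subgraph of `G` induced by `Q`. -/
def ok (G : SimpleGraph V) (Q : Finset V) {α : Type*} (f : Q → α) : Prop :=
  ∀ a b : Q, G.Adj a b → f a ≠ f b

open Classical in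
/-- Number of proper colourings of `G[Q]` with colours in `α`. -/
noncomputable def cnt (G : SimpleGraph V) (Q : Finset V) (α : Type*) [Fintype α] : ℕ :=
  #{f : Q → α | ok G Q f}

open Classical in
/-- Number of pairs (proper colouring of `G[Q]`, colour not used on `C`). -/
noncomputable def cntF (G : SimpleGraph V) (Q C : Finset V) (α : Type*) [Fintype α] : ℕ :=
  #{p : (Q → α) × α | ok G Q p.1 ∧ ∀ a : Q, a.1 ∈ C → p.1 a ≠ p.2}

section counts

open Classical

variable (G : SimpleGraph V) (Q C : Finset V) (α : Type*) [Fintype α]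

theorem cnt_congr {G G' : SimpleGraph V} {Q : Finset V}
    (h : ∀ a ∈ Q, ∀ b ∈ Q, (G.Adj a b ↔ G'.Adj a b)) : cnt G Q α = cnt G' Q α := by
  unfold cnt
  congr 1
  apply Finset.filter_congr
  intro f _
  constructor
  · intro hf a b hab
    exact hf a b ((h a a.2 b b.2).2 hab)
  · intro hf a b hab
    exact hf a b ((h a a.2 b b.2).1 hab)

theorem cntF_congr {G G' : SimpleGraph V} {Q C C' : Finset V}
    (h : ∀ a ∈ Q, ∀ b ∈ Q, (G.Adj a b ↔ G'.Adj a b)) (h2 : ∀ a ∈ Q, (a ∈ C ↔ a ∈ C')) :
    cntF G Q C α = cntF G' Q C' α := by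
  unfold cntF
  congr 1
  apply Finset.filter_congr
  intro f _
  constructor
  · rintro ⟨hf, hc⟩
    exact ⟨fun a b hab => hf a b ((h a a.2 b b.2).2 hab), fun a ha => hc a ((h2 a a.2).2 ha)⟩
  · rintro ⟨hf, hc⟩
    exact ⟨fun a b hab => hf a b ((h a a.2 b b.2).1 hab), fun a ha => hc a ((h2 a a.2).1 ha)⟩

theorem cnt_empty : cnt G ∅ α = 1 := by
  unfold cnt
  rw [Finset.filter_true_of_mem]
  · simp
  · intro f _ a
    exact absurd a.2 (Finset.notMem_empty _)

theorem cntF_empty : cntF G Q ∅ α = Fintype.card α * cnt G Q α := by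
  unfold cntF cnt
  rw [mul_comm, ← Finset.card_univ (α := α), ← Finset.card_product]
  congr 1
  ext p
  simp

theorem cntF_insert {u : V} (hu : u ∈ Q) (huC : u ∉ C) :
    cntF G Q C α = cntF G Q (insert u C) α + cnt (J G u C) Q α := by
  have h1 : cntF G Q C α =
      #{p : (Q → α) × α | (ok G Q p.1 ∧ ∀ a : Q, a.1 ∈ C → p.1 a ≠ p.2) ∧ ¬ (p.1 ⟨u, hu⟩ = p.2)} +
      #{p : (Q → α) × α | (ok G Q p.1 ∧ ∀ a : Q, a.1 ∈ C → p.1 a ≠ p.2) ∧ (p.1 ⟨u, hu⟩ = p.2)} := by
    unfold cntF
    rw [← Finset.card_filter_add_card_filter_not (s := {p : (Q → α) × α |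
      ok G Q p.1 ∧ ∀ a : Q, a.1 ∈ C → p.1 a ≠ p.2}) (fun p => p.1 ⟨u, hu⟩ = p.2)]
    rw [add_comm, Finset.filter_filter, Finset.filter_filter]
  rw [h1]
  congr 1
  · unfold cntF
    congr 1
    apply Finset.filter_congr
    intro p _
    constructor
    · rintro ⟨⟨h2, h3⟩, h4⟩
      refine ⟨h2, fun a ha => ?_⟩
      rcases Finset.mem_insert.1 ha with h5 | h5
      · have : a = ⟨u, hu⟩ := Subtype.ext h5
        rw [this]; exact h4
      · exact h3 a h5
    · rintro ⟨h2, h3⟩
      exact ⟨⟨h2, fun a ha => h3 a (Finset.mem_insert_of_mem ha)⟩,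
        h3 ⟨u, hu⟩ (Finset.mem_insert_self _ _)⟩
  · unfold cnt
    apply Finset.card_nbij' (fun p => p.1) (fun f => (f, f ⟨u, hu⟩))
    · intro p hp
      simp only [Finset.coe_filter, Finset.mem_univ, true_and, Set.mem_ofPred_eq] at hp ⊢
      obtain ⟨⟨h2, h3⟩, h4⟩ := hp
      intro a b hab
      rcases hab with hab | ⟨_, ⟨ha, hb⟩ | ⟨hb, ha⟩⟩
      · exact h2 a b hab
      · have : a = ⟨u, hu⟩ := Subtype.ext ha
        rw [this, h4]
        exact (h3 b hb).symm
      · have : b = ⟨u, hu⟩ := Subtype.ext hb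
        rw [this, h4]
        exact (h3 a ha)
    · intro f hf
      simp only [Finset.coe_filter, Finset.mem_univ, true_and, Set.mem_ofPred_eq] at hf ⊢
      refine ⟨⟨fun a b hab => hf a b (Or.inl hab), fun a ha => ?_⟩, trivial⟩
      apply hf a ⟨u, hu⟩
      refine Or.inr ⟨?_, Or.inr ⟨rfl, ha⟩⟩
      intro h
      apply huC
      have h' : (a : V) = u := h
      rw [← h']; exact ha
    · intro p hp
      simp only [Finset.coe_filter, Finset.mem_univ, true_and, Set.mem_ofPred_eq] at hp
      exact Prod.ext rfl hp.2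
    · intro f _
      rfl

theorem cnt_insert {x : V} (hx : x ∉ Q) :
    cnt G (insert x Q) α = cntF G Q (Q.filter (G.Adj x)) α := by
  unfold cnt cntF
  apply Finset.card_nbij' (fun f => (fun v : Q => f ⟨v.1, Finset.mem_insert_of_mem v.2⟩,
      f ⟨x, Finset.mem_insert_self _ _⟩))
    (fun p => fun v => if h : v.1 = x then p.2 else
      p.1 ⟨v.1, Finset.mem_of_mem_insert_of_ne v.2 h⟩)
  · intro f hf
    simp only [Finset.coe_filter, Finset.mem_univ, true_and, Set.mem_ofPred_eq] at hf ⊢
    refine ⟨fun a b hab => hf _ _ hab, fun a ha => ?_⟩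
    apply hf
    simp only [Finset.mem_filter] at ha
    exact ha.2.symm
  · intro p hp
    simp only [Finset.coe_filter, Finset.mem_univ, true_and, Set.mem_ofPred_eq] at hp ⊢
    obtain ⟨h1, h2⟩ := hp
    intro a b hab
    by_cases ha : a.1 = x
    · by_cases hb : b.1 = x
      · exfalso
        rw [ha, hb] at hab
        exact hab.ne rfl
      · simp only [ha, hb, dite_true, dite_false]
        have hbQ : b.1 ∈ Q := Finset.mem_of_mem_insert_of_ne b.2 hb
        have hab' := hab
        rw [ha] at hab'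
        exact (h2 ⟨b.1, hbQ⟩ (Finset.mem_filter.2 ⟨hbQ, hab'⟩)).symm
    · by_cases hb : b.1 = x
      · simp only [ha, hb, dite_true, dite_false]
        have haQ : a.1 ∈ Q := Finset.mem_of_mem_insert_of_ne a.2 ha
        have hab' := hab.symm
        rw [hb] at hab'
        exact h2 ⟨a.1, haQ⟩ (Finset.mem_filter.2 ⟨haQ, hab'⟩)
      · simp only [ha, hb, dite_false]
        exact h1 _ _ hab
  · intro f _
    ext v
    by_cases hv : v.1 = x
    · have : v = ⟨x, Finset.mem_insert_self _ _⟩ := Subtype.ext hv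
      simp [this]
    · simp [hv]
  · intro p _
    apply Prod.ext
    · ext v
      have hv : v.1 ≠ x := fun h => hx (by rw [← h]; exact v.2)
      simp [hv]
    · simp

theorem cntF_self (k : ℕ) : cntF G Q Q (Fin (k + 1)) = (k + 1) * cnt G Q (Fin k) := by
  have h : #((Finset.univ : Finset (Fin (k + 1))) ×ˢ
      (Finset.univ.filter (fun f : Q → Fin k => ok G Q f))) = cntF G Q Q (Fin (k + 1)) := by
    unfold cntF
    refine Finset.card_bij (fun p _ => (fun v => p.1.succAbove (p.2 v), p.1)) ?_ ?_ ?_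
    · intro p hp
      simp only [Finset.mem_product, Finset.mem_univ, Finset.mem_filter, true_and] at hp ⊢
      refine ⟨fun a b hab h => hp a b hab (Fin.succAbove_right_injective h), fun a _ => ?_⟩
      exact Fin.succAbove_ne _ _
    · intro p _ q _ hpq
      have h1 : p.1 = q.1 := congrArg Prod.snd hpq
      have h2 := congrArg Prod.fst hpq
      apply Prod.ext h1
      ext v
      have h3 := congrFun h2 v
      simp only [h1] at h3
      rw [Fin.succAbove_right_injective h3]
    · intro p hp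
      simp only [Finset.mem_univ, Finset.mem_filter, true_and] at hp
      obtain ⟨h1, h2⟩ := hp
      have h3 : ∀ a : Q, ∃ y : Fin k, p.2.succAbove y = p.1 a := fun a =>
        Fin.exists_succAbove_eq (h2 a a.2)
      choose g hg using h3
      refine ⟨(p.2, g), ?_, ?_⟩
      · simp only [Finset.mem_product, Finset.mem_univ, Finset.mem_filter, true_and]
        intro a b hab h4
        apply h1 a b hab
        rw [← hg a, ← hg b, h4]
      · apply Prod.ext
        · ext v
          simp [hg]
        · rfl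
  rw [← h, Finset.card_product]
  simp [cnt]

end counts

section polys

open Classical

theorem poly_ext {p q : ℤ[X]} (h : ∀ k : ℕ, p.eval ((k : ℤ) + 1) = q.eval ((k : ℤ) + 1)) :
    p = q := by
  apply Polynomial.eq_of_infinite_eval_eq
  have h1 : Set.range (fun k : ℕ => ((k : ℤ) + 1)) ⊆ {x | eval x p = eval x q} := by
    rintro _ ⟨k, rfl⟩
    exact h k
  refine Set.Infinite.mono h1 (Set.infinite_range_of_injective ?_)
  intro a b hab
  have : (a : ℤ) + 1 = (b : ℤ) + 1 := hab
  omega

theorem exists_poly (Q : Finset V) : ∀ G : SimpleGraph V,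
    ∃ p : ℤ[X], ∀ k : ℕ, p.eval (k : ℤ) = cnt G Q (Fin k) := by
  induction Q using Finset.induction_on with
  | empty =>
    intro G
    exact ⟨1, fun k => by rw [cnt_empty]; simp⟩
  | insert x Q hx ih =>
    intro G
    have key : ∀ C : Finset V, ∃ p : ℤ[X], ∀ k : ℕ, p.eval (k : ℤ) = cntF G Q C (Fin k) := by
      intro C
      induction C using Finset.induction_on with
      | empty =>
        obtain ⟨p, hp⟩ := ih G
        refine ⟨X * p, fun k => ?_⟩
        rw [cntF_empty, eval_mul, eval_X, hp k]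
        simp
      | insert u C hu ihC =>
        obtain ⟨p, hp⟩ := ihC
        by_cases huQ : u ∈ Q
        · obtain ⟨q, hq⟩ := ih (J G u C)
          refine ⟨p - q, fun k => ?_⟩
          rw [eval_sub, hp k, hq k, cntF_insert G Q C (Fin k) huQ hu]
          push_cast
          ring
        · refine ⟨p, fun k => ?_⟩
          rw [hp k]
          congr 1
          apply cntF_congr _ (fun _ _ _ _ => Iff.rfl)
          intro a ha
          rw [Finset.mem_insert]
          constructor
          · intro h; exact Or.inr h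
          · rintro (rfl | h)
            · exact absurd ha huQ
            · exact h
    obtain ⟨p, hp⟩ := key (Q.filter (G.Adj x))
    exact ⟨p, fun k => by rw [hp k, cnt_insert G Q (Fin k) hx]⟩

theorem exists_polyF (G : SimpleGraph V) (Q C : Finset V) :
    ∃ p : ℤ[X], ∀ k : ℕ, p.eval (k : ℤ) = cntF G Q C (Fin k) := by
  induction C using Finset.induction_on with
  | empty =>
    obtain ⟨p, hp⟩ := exists_poly Q G
    refine ⟨X * p, fun k => ?_⟩
    rw [cntF_empty, eval_mul, eval_X, hp k]
    simp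
  | insert u C hu ihC =>
    obtain ⟨p, hp⟩ := ihC
    by_cases huQ : u ∈ Q
    · obtain ⟨q, hq⟩ := exists_poly Q (J G u C)
      refine ⟨p - q, fun k => ?_⟩
      rw [eval_sub, hp k, hq k, cntF_insert G Q C (Fin k) huQ hu]
      push_cast
      ring
    · refine ⟨p, fun k => ?_⟩
      rw [hp k]
      congr 1
      apply cntF_congr _ (fun _ _ _ _ => Iff.rfl)
      intro a ha
      rw [Finset.mem_insert]
      constructor
      · intro h; exact Or.inr h
      · rintro (rfl | h)
        · exact absurd ha huQ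
        · exact h

/-- Chromatic polynomial of `G[Q]`. -/
noncomputable def P (G : SimpleGraph V) (Q : Finset V) : ℤ[X] := Classical.choose (exists_poly Q G)

/-- The polynomial counting pairs (proper colouring of `G[Q]`, colour not used on `C`). -/
noncomputable def PF (G : SimpleGraph V) (Q C : Finset V) : ℤ[X] :=
  Classical.choose (exists_polyF G Q C)

theorem P_eval (G : SimpleGraph V) (Q : Finset V) (k : ℕ) :
    (P G Q).eval (k : ℤ) = cnt G Q (Fin k) := Classical.choose_spec (exists_poly Q G) k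

theorem PF_eval (G : SimpleGraph V) (Q C : Finset V) (k : ℕ) :
    (PF G Q C).eval (k : ℤ) = cntF G Q C (Fin k) := Classical.choose_spec (exists_polyF G Q C) k

theorem P_eval' (G : SimpleGraph V) (Q : Finset V) (k : ℕ) :
    (P G Q).eval ((k : ℤ) + 1) = cnt G Q (Fin (k + 1)) := by
  have := P_eval G Q (k + 1)
  push_cast at this
  exact this

theorem PF_eval' (G : SimpleGraph V) (Q C : Finset V) (k : ℕ) :
    (PF G Q C).eval ((k : ℤ) + 1) = cntF G Q C (Fin (k + 1)) := by
  have := PF_eval G Q C (k + 1)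
  push_cast at this
  exact this

/-- Value of the chromatic polynomial of `G[Q]`. -/
noncomputable def pv (G : SimpleGraph V) (Q : Finset V) (Z : ℂ) : ℂ := aeval Z (P G Q)

/-- Value of `PF`. -/
noncomputable def fv (G : SimpleGraph V) (Q C : Finset V) (Z : ℂ) : ℂ := aeval Z (PF G Q C)

theorem pv_congr {G G' : SimpleGraph V} {Q : Finset V}
    (h : ∀ a ∈ Q, ∀ b ∈ Q, (G.Adj a b ↔ G'.Adj a b)) (Z : ℂ) : pv G Q Z = pv G' Q Z := by
  unfold pv
  congr 1
  apply poly_ext
  intro k
  rw [P_eval', P_eval', cnt_congr _ h]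

theorem fv_congr {G G' : SimpleGraph V} {Q C C' : Finset V}
    (h : ∀ a ∈ Q, ∀ b ∈ Q, (G.Adj a b ↔ G'.Adj a b)) (h2 : ∀ a ∈ Q, (a ∈ C ↔ a ∈ C')) (Z : ℂ) :
    fv G Q C Z = fv G' Q C' Z := by
  unfold fv
  congr 1
  apply poly_ext
  intro k
  rw [PF_eval', PF_eval', cntF_congr _ h h2]

theorem pv_empty (G : SimpleGraph V) (Z : ℂ) : pv G ∅ Z = 1 := by
  unfold pv
  have : P G ∅ = 1 := by
    apply poly_ext
    intro k
    rw [P_eval', cnt_empty]
    simp
  rw [this]
  simp

theorem fv_empty (G : SimpleGraph V) (Q : Finset V) (Z : ℂ) : fv G Q ∅ Z = Z * pv G Q Z := by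
  unfold fv pv
  have : PF G Q ∅ = X * P G Q := by
    apply poly_ext
    intro k
    rw [PF_eval', cntF_empty, eval_mul, eval_X, P_eval']
    simp
  rw [this]
  simp

theorem fv_insert (G : SimpleGraph V) (Q C : Finset V) {u : V} (hu : u ∈ Q) (huC : u ∉ C)
    (Z : ℂ) : fv G Q C Z = fv G Q (insert u C) Z + pv (J G u C) Q Z := by
  unfold fv pv
  have : PF G Q C = PF G Q (insert u C) + P (J G u C) Q := by
    apply poly_ext
    intro k
    rw [PF_eval', eval_add, PF_eval', P_eval', cntF_insert G Q C _ hu huC]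
    push_cast
    rfl
  rw [this]
  simp

theorem pv_insert (G : SimpleGraph V) (Q : Finset V) {x : V} (hx : x ∉ Q) (Z : ℂ) :
    pv G (insert x Q) Z = fv G Q (Q.filter (G.Adj x)) Z := by
  unfold fv pv
  congr 1
  apply poly_ext
  intro k
  rw [PF_eval', P_eval', cnt_insert G Q _ hx]

theorem fv_self (G : SimpleGraph V) (Q : Finset V) (Z : ℂ) :
    fv G Q Q Z = Z * pv G Q (Z - 1) := by
  unfold fv pv
  have : PF G Q Q = X * (P G Q).comp (X - 1) := by
    apply poly_ext
    intro k
    rw [PF_eval', cntF_self, eval_mul, eval_X, eval_comp]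
    simp [P_eval]
  rw [this, map_mul, aeval_X, aeval_comp]
  simp

end polys

end Pool.Agent.Work.MP_1e1ce6_co.Brown
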