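import Pool.Agent.Work.MP_1e1ce6_co.Brown.Basic

/-!
# MP_1e1ce6_co : the induction
-/

namespace Pool.Agent.Work.MP_1e1ce6_co.Brown

open Finset

/-- closed first quadrant -/
def Q1 (z : ℂ) : Prop := 0 ≤ z.re ∧ 0 ≤ z.im

/-- closed fourth quadrant -/
def Q4 (z : ℂ) : Prop := 0 ≤ z.re ∧ z.im ≤ 0

/-- the disc with diameter `[0,1]` -/
def Dk (p : ℂ) : Prop := Complex.normSq p ≤ p.re

theorem Q1.inv {z : ℂ} (h : Q1 z) : Q4 z⁻¹ := by
  have h0 := Complex.normSq_nonneg z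
  refine ⟨?_, ?_⟩
  · rw [Complex.inv_re]
    exact div_nonneg h.1 h0
  · rw [Complex.inv_im]
    exact div_nonpos_of_nonpos_of_nonneg (neg_nonpos.2 h.2) h0

theorem Q4.inv {z : ℂ} (h : Q4 z) : Q1 z⁻¹ := by
  have h0 := Complex.normSq_nonneg z
  refine ⟨?_, ?_⟩
  · rw [Complex.inv_re]
    exact div_nonneg h.1 h0
  · rw [Complex.inv_im]
    exact div_nonneg (by linarith [h.2]) h0

theorem Q4.add {x y : ℂ} (hx : Q4 x) (hy : Q4 y) : Q4 (x + y) := by
  refine ⟨?_, ?_⟩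
  · rw [Complex.add_re]; linarith [hx.1, hy.1]
  · rw [Complex.add_im]; linarith [hx.2, hy.2]

theorem Q4.mul_re {x y : ℂ} (hx : Q4 x) (hy : Q1 y) : 0 ≤ (x * y).re := by
  rw [Complex.mul_re]
  nlinarith [mul_nonneg hx.1 hy.1, mul_nonneg (neg_nonneg.2 hx.2) hy.2]

theorem Q1.mul_im {x y : ℂ} (hx : Q1 x) (hy : Q1 y) : 0 ≤ (x * y).im := by
  rw [Complex.mul_im]
  nlinarith [mul_nonneg hx.1 hy.2, mul_nonneg hx.2 hy.1]

theorem Dk.re_nonneg {p : ℂ} (h : Dk p) : 0 ≤ p.re :=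
  le_trans (Complex.normSq_nonneg p) h

theorem Dk.re_le_one {p : ℂ} (h : Dk p) : p.re ≤ 1 := by
  have h1 : Complex.normSq p ≤ p.re := h
  rw [Complex.normSq_apply] at h1
  nlinarith [sq_nonneg p.im, sq_nonneg (p.re - 1), h.re_nonneg]

theorem Dk.one_sub {p : ℂ} (h : Dk p) : Dk (1 - p) := by
  have h1 : Complex.normSq p ≤ p.re := h
  show Complex.normSq (1 - p) ≤ (1 - p).re
  rw [Complex.normSq_apply] at h1 ⊢
  simp only [Complex.sub_re, Complex.one_re, Complex.sub_im, Complex.one_im]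
  nlinarith

theorem Dk.norm_le {p : ℂ} (h : Dk p) : ‖p‖ ≤ 1 := by
  have h1 : Complex.normSq p ≤ p.re := h
  have h2 := h.re_le_one
  rw [Complex.normSq_eq_norm_sq] at h1
  nlinarith [norm_nonneg p]

theorem Dk.mul_re_le {p q : ℂ} (hp : Dk p) (hq : Dk q) : (p * q).re ≤ 1 := by
  calc (p * q).re ≤ ‖p * q‖ := Complex.re_le_norm _
    _ = ‖p‖ * ‖q‖ := norm_mul _ _
    _ ≤ 1 * 1 := mul_le_mul hp.norm_le hq.norm_le (norm_nonneg _) zero_le_one
    _ = 1 := one_mul 1

theorem Dk.eq_zero {p : ℂ} (h : Dk p) (h0 : p.re = 0) : p = 0 := by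
  have h1 : Complex.normSq p ≤ p.re := h
  rw [h0] at h1
  exact Complex.normSq_eq_zero.1 (le_antisymm h1 (Complex.normSq_nonneg p))

theorem Dk_inv {q : ℂ} (h : 1 ≤ q.re) : Dk q⁻¹ := by
  show Complex.normSq q⁻¹ ≤ (q⁻¹).re
  rw [Complex.inv_re, Complex.normSq_inv]
  have h0 := Complex.normSq_nonneg q
  rw [inv_eq_one_div]
  exact div_le_div_of_nonneg_right h h0

variable {V : Type*}

open Classical

/-- telescoping -/
theorem tele (Φ : Finset V → ℂ) (K : ℕ → ℂ → Prop) (h0 : K 0 0)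
    (hadd : ∀ n a b, K n a → K 1 b → K (n + 1) (a + b)) {C1 C2 : Finset V} (hC : C1 ⊆ C2)
    (hstep : ∀ t ∈ C2, ∀ D, C1 ⊆ D → D ⊆ C2 → t ∉ D → K 1 (Φ D - Φ (insert t D))) :
    K (#(C2 \ C1)) (Φ C1 - Φ C2) := by
  have key : ∀ E : Finset V, E ⊆ C2 \ C1 → K (#E) (Φ C1 - Φ (C1 ∪ E)) := by
    intro E
    induction E using Finset.induction_on with
    | empty =>
      intro _
      simpa using h0
    | insert t E ht ih =>
      intro hE
      have hE' : E ⊆ C2 \ C1 := fun a ha => hE (Finset.mem_insert_of_mem ha)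
      have htC := Finset.mem_sdiff.1 (hE (Finset.mem_insert_self t E))
      have h1 := ih hE'
      have h2 := hstep t htC.1 (C1 ∪ E) Finset.subset_union_left
        (Finset.union_subset hC (fun a ha => (Finset.mem_sdiff.1 (hE' ha)).1))
        (fun h => by
          rcases Finset.mem_union.1 h with h | h
          · exact htC.2 h
          · exact ht h)
      have h3 := hadd _ _ _ h1 h2
      rw [Finset.card_insert_of_notMem ht]
      have h4 : C1 ∪ insert t E = insert t (C1 ∪ E) := by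
        rw [Finset.union_insert]
      rw [h4]
      have h5 : Φ C1 - Φ (C1 ∪ E) + (Φ (C1 ∪ E) - Φ (insert t (C1 ∪ E))) =
        Φ C1 - Φ (insert t (C1 ∪ E)) := by ring
      rw [h5] at h3
      exact h3
  have h6 := key (C2 \ C1) (Finset.Subset.refl _)
  rw [Finset.union_sdiff_of_subset hC] at h6
  exact h6

/-- The induction hypothesis. -/
def Hyp (V : Type*) (k : ℕ) : Prop :=
  ∀ (G : SimpleGraph V) (Q : Finset V), #Q = k → ∀ Z : ℂ, (k : ℝ) ≤ Z.re → 0 ≤ Z.im →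
    pv G Q Z ≠ 0 ∧ (∀ C ⊆ Q, Q1 (fv G Q C Z / pv G Q Z)) ∧
      (∀ s ∈ Q, ∀ C : Finset V, Q1 (Z * pv G Q (Z - 1) / pv (J G s C) Q Z))

variable {k : ℕ}

theorem fv_self_ne (h : Hyp V k) (G : SimpleGraph V) {R : Finset V} (hR : #R = k) {Z : ℂ}
    (hZ : (k : ℝ) + 1 ≤ Z.re) (hi : 0 ≤ Z.im) : fv G R R Z ≠ 0 := by
  rw [fv_self]
  refine mul_ne_zero ?_ ?_
  · intro h0
    rw [h0] at hZ
    simp only [Complex.zero_re] at hZ
    have : (0 : ℝ) ≤ k := Nat.cast_nonneg k
    linarith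
  · refine (h G R hR (Z - 1) ?_ ?_).1
    · simp only [Complex.sub_re, Complex.one_re]; linarith
    · simp only [Complex.sub_im, Complex.one_im]; linarith

theorem stepA (h : Hyp V k) (G : SimpleGraph V) {R : Finset V} (hR : #R = k) {Z : ℂ}
    (hZ : (k : ℝ) + 1 ≤ Z.re) (hi : 0 ≤ Z.im) {C1 C2 : Finset V} (hC : C1 ⊆ C2) (hC2 : C2 ⊆ R) :
    Q4 (fv G R C1 Z / fv G R R Z - fv G R C2 Z / fv G R R Z) := by
  refine tele (fun C => fv G R C Z / fv G R R Z) (fun _ z => Q4 z) ⟨le_rfl, le_rfl⟩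
    (fun _ _ _ ha hb => ha.add hb) hC ?_
  intro t ht D _ hD2 htD
  show Q4 (fv G R D Z / fv G R R Z - fv G R (insert t D) Z / fv G R R Z)
  rw [fv_insert G R D (hC2 ht) htD]
  have h1 := ((h G R hR Z (by linarith) hi).2.2 t (hC2 ht) D).inv
  rw [inv_div, ← fv_self] at h1
  have h2 : (fv G R (insert t D) Z + pv (J G t D) R Z) / fv G R R Z -
      fv G R (insert t D) Z / fv G R R Z = pv (J G t D) R Z / fv G R R Z := by ring
  rw [h2]
  exact h1

theorem stepB (h : Hyp V k) (G : SimpleGraph V) {R : Finset V} (hR : #R = k) {Z : ℂ}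
    (hZ : (k : ℝ) + 1 ≤ Z.re) (hi : 0 ≤ Z.im) {C : Finset V} (hC : C ⊆ R) :
    1 ≤ (fv G R C Z / fv G R R Z).re ∧ (fv G R C Z / fv G R R Z).im ≤ 0 := by
  have h1 := stepA h G hR hZ hi hC (Finset.Subset.refl R)
  rw [div_self (fv_self_ne h G hR hZ hi)] at h1
  obtain ⟨h2, h3⟩ := h1
  simp only [Complex.sub_re, Complex.one_re, Complex.sub_im, Complex.one_im] at h2 h3
  exact ⟨by linarith, by linarith⟩

theorem fv_ne (h : Hyp V k) (G : SimpleGraph V) {R : Finset V} (hR : #R = k) {Z : ℂ}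
    (hZ : (k : ℝ) + 1 ≤ Z.re) (hi : 0 ≤ Z.im) {C : Finset V} (hC : C ⊆ R) :
    fv G R C Z ≠ 0 := by
  intro h0
  have h1 := (stepB h G hR hZ hi hC).1
  rw [h0] at h1
  simp at h1
  linarith

theorem stepC (h : Hyp V k) (G : SimpleGraph V) {R : Finset V} (hR : #R = k) {Z : ℂ}
    (hZ : (k : ℝ) + 1 ≤ Z.re) (hi : 0 ≤ Z.im) {C1 C2 : Finset V} (hC : C1 ⊆ C2) (hC2 : C2 ⊆ R) :
    1 ≤ (fv G R C1 Z / fv G R C2 Z).re := by
  have h1 := stepA h G hR hZ hi hC hC2
  have h2 := stepB h G hR hZ hi hC2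
  have h3 : Q1 (fv G R C2 Z / fv G R R Z)⁻¹ := Q4.inv ⟨by linarith [h2.1], h2.2⟩
  have h4 := h1.mul_re h3
  have ha := fv_self_ne h G hR hZ hi
  have hb := fv_ne h G hR hZ hi hC2
  have h5 : (fv G R C1 Z / fv G R R Z - fv G R C2 Z / fv G R R Z) * (fv G R C2 Z / fv G R R Z)⁻¹ =
      fv G R C1 Z / fv G R C2 Z - 1 := by
    field_simp
  rw [h5, Complex.sub_re, Complex.one_re] at h4
  linarith

theorem pv_erase (G : SimpleGraph V) {Q : Finset V} {s : V} (hs : s ∈ Q) (Z : ℂ) :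
    pv G Q Z = fv G (Q.erase s) ((Q.erase s).filter (G.Adj s)) Z := by
  have h1 := pv_insert G (Q.erase s) (Finset.notMem_erase s Q) Z
  rw [Finset.insert_erase hs] at h1
  exact h1

theorem pv_J (G : SimpleGraph V) {Q : Finset V} {x : V} (hx : x ∈ Q) (C : Finset V) (Z : ℂ) :
    pv (J G x C) Q Z =
      fv G (Q.erase x) ((Q.erase x).filter (G.Adj x) ∪ (C ∩ Q.erase x)) Z := by
  rw [pv_erase (J G x C) hx]
  apply fv_congr
  · intro a ha b hb
    have ha' : a ≠ x := Finset.ne_of_mem_erase ha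
    have hb' : b ≠ x := Finset.ne_of_mem_erase hb
    rw [J_adj]
    simp [ha', hb']
  · intro a ha
    have ha' : a ≠ x := Finset.ne_of_mem_erase ha
    rw [Finset.mem_union, Finset.mem_filter, Finset.mem_filter, Finset.mem_inter, J_adj]
    simp only [ha, true_and, and_true]
    constructor
    · rintro (h | ⟨_, h | ⟨h, _⟩⟩)
      · exact Or.inl h
      · exact Or.inr h
      · exact absurd h ha'
    · rintro (h | h)
      · exact Or.inl h
      · exact Or.inr ⟨ha'.symm, Or.inl h⟩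

theorem level_ne (h : Hyp V k) (G : SimpleGraph V) {Q : Finset V} (hQ : #Q = k + 1) {Z : ℂ}
    (hZ : (k : ℝ) + 1 ≤ Z.re) (hi : 0 ≤ Z.im) : pv G Q Z ≠ 0 := by
  obtain ⟨s, hs⟩ : Q.Nonempty := by
    rw [← Finset.card_pos, hQ]; omega
  rw [pv_erase G hs]
  exact fv_ne h G (by rw [Finset.card_erase_of_mem hs, hQ]; rfl) hZ hi (Finset.filter_subset _ _)

theorem level_Dk (h : Hyp V k) (G : SimpleGraph V) {Q : Finset V} (hQ : #Q = k + 1) {Z : ℂ}
    (hZ : (k : ℝ) + 1 ≤ Z.re) (hi : 0 ≤ Z.im) {s : V} (hs : s ∈ Q) (C : Finset V) :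
    Dk (pv (J G s C) Q Z / pv G Q Z) := by
  rw [pv_erase G hs, pv_J G hs]
  have hR : #(Q.erase s) = k := by rw [Finset.card_erase_of_mem hs, hQ]; rfl
  have h1 := stepC h G hR hZ hi (C1 := (Q.erase s).filter (G.Adj s))
    (C2 := (Q.erase s).filter (G.Adj s) ∪ (C ∩ Q.erase s)) Finset.subset_union_left
    (Finset.union_subset (Finset.filter_subset _ _) Finset.inter_subset_right)
  have h2 := Dk_inv h1
  rw [inv_div] at h2
  exact h2

/-- differences of `fv / pv` have real part at most the number of added elements -/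
theorem re_diff_le (h : Hyp V k) (G : SimpleGraph V) {Q : Finset V} (hQ : #Q = k + 1) {Z : ℂ}
    (hZ : (k : ℝ) + 1 ≤ Z.re) (hi : 0 ≤ Z.im) {C1 C2 : Finset V} (hC : C1 ⊆ C2) (hC2 : C2 ⊆ Q) :
    (fv G Q C1 Z / pv G Q Z - fv G Q C2 Z / pv G Q Z).re ≤ #(C2 \ C1) := by
  refine tele (fun C => fv G Q C Z / pv G Q Z) (fun n z => z.re ≤ n) (by simp) ?_ hC ?_
  · intro n a b ha hb
    rw [Complex.add_re]
    push_cast at hb ⊢
    linarith
  · intro t ht D _ _ htD
    show (fv G Q D Z / pv G Q Z - fv G Q (insert t D) Z / pv G Q Z).re ≤ _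
    rw [fv_insert G Q D (hC2 ht) htD]
    have h2 : (fv G Q (insert t D) Z + pv (J G t D) Q Z) / pv G Q Z -
        fv G Q (insert t D) Z / pv G Q Z = pv (J G t D) Q Z / pv G Q Z := by ring
    rw [h2]
    push_cast
    exact (level_Dk h G hQ hZ hi (hC2 ht) D).re_le_one

theorem cone_eq (G : SimpleGraph V) {Q : Finset V} {x t : V} (hx : x ∈ Q)
    (C : Finset V) {D : Finset V} (Z : ℂ) :
    Z * pv (J G t D) (Q.erase x) (Z - 1) =
      pv (J (J (J G x C) t D) x (Q.erase x)) Q Z := by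
  rw [← fv_self, pv_J _ hx]
  apply fv_congr
  · intro a ha b hb
    have ha' : a ≠ x := Finset.ne_of_mem_erase ha
    have hb' : b ≠ x := Finset.ne_of_mem_erase hb
    simp [J_adj, ha', hb']
  · intro a ha
    simp only [ha, Finset.mem_union, Finset.mem_inter, and_self, or_true]

theorem stepD (h : Hyp V k) (G : SimpleGraph V) {Q : Finset V} (hQ : #Q = k + 1) {Z : ℂ}
    (hZ : (k : ℝ) + 1 ≤ Z.re) (hi : 0 ≤ Z.im) {x : V} (hx : x ∈ Q) (C : Finset V) :
    Z.re - (k + 1) ≤ (Z * pv G Q (Z - 1) / pv (J G x C) Q Z).re := by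
  set G' := J G x C with hG'
  set R := Q.erase x with hR
  set N0 := R.filter (G.Adj x) with hN0
  set E := N0 ∪ (C ∩ R) with hE
  have hRQ : R ⊆ Q := Finset.erase_subset _ _
  have hN0R : N0 ⊆ R := Finset.filter_subset _ _
  have hN0E : N0 ⊆ E := Finset.subset_union_left
  have hER : E ⊆ R := Finset.union_subset hN0R Finset.inter_subset_right
  have hEQ : E ⊆ Q := hER.trans hRQ
  have hA : pv G' Q Z ≠ 0 := level_ne h G' hQ hZ hi
  have hp' : ∀ W, pv G' Q W = fv G R E W := fun W => pv_J G hx C W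
  have hp : ∀ W, pv G Q W = fv G R N0 W := fun W => pv_erase G hx W
  have T1 := re_diff_le h G' hQ hZ hi (Finset.empty_subset N0) (hN0R.trans hRQ)
  have T3 := re_diff_le h G' hQ hZ hi hEQ (Finset.Subset.refl Q)
  have T2 : ((fv G' Q N0 Z - Z * fv G R N0 (Z - 1)) / pv G' Q Z -
      (fv G' Q E Z - Z * fv G R E (Z - 1)) / pv G' Q Z).re ≤ #(E \ N0) := by
    refine tele (fun D => (fv G' Q D Z - Z * fv G R D (Z - 1)) / pv G' Q Z)
      (fun n z => z.re ≤ n) (by simp) ?_ hN0E ?_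
    · intro n a b ha hb
      rw [Complex.add_re]
      push_cast at hb ⊢
      linarith
    · intro t ht D _ _ htD
      show ((fv G' Q D Z - Z * fv G R D (Z - 1)) / pv G' Q Z -
        (fv G' Q (insert t D) Z - Z * fv G R (insert t D) (Z - 1)) / pv G' Q Z).re ≤ _
      rw [fv_insert G' Q D (hEQ ht) htD, fv_insert G R D (hER ht) htD]
      have hne : pv (J G' t D) Q Z ≠ 0 := level_ne h _ hQ hZ hi
      have h3 := cone_eq G hx C (t := t) (D := D) Z
      rw [← hG', ← hR] at h3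
      have e1 := level_Dk h G' hQ hZ hi (hEQ ht) D
      have e2 := (level_Dk h (J G' t D) hQ hZ hi hx R).one_sub
      have e3 := e1.mul_re_le e2
      have h4 : (fv G' Q (insert t D) Z + pv (J G' t D) Q Z -
          Z * (fv G R (insert t D) (Z - 1) + pv (J G t D) R (Z - 1))) / pv G' Q Z -
          (fv G' Q (insert t D) Z - Z * fv G R (insert t D) (Z - 1)) / pv G' Q Z =
          pv (J G' t D) Q Z / pv G' Q Z *
            (1 - pv (J (J G' t D) x R) Q Z / pv (J G' t D) Q Z) := by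
        rw [← h3]
        field_simp
        ring
      rw [h4]
      push_cast
      exact e3
  have h5 : fv G' Q ∅ Z / pv G' Q Z = Z := by
    rw [fv_empty]
    field_simp
  have h6 : (fv G' Q E Z - Z * fv G R E (Z - 1)) / pv G' Q Z =
      fv G' Q E Z / pv G' Q Z - fv G' Q Q Z / pv G' Q Z := by
    rw [← hp', fv_self]
    ring
  have h7 : (fv G' Q N0 Z - Z * fv G R N0 (Z - 1)) / pv G' Q Z =
      fv G' Q N0 Z / pv G' Q Z - Z * pv G Q (Z - 1) / pv G' Q Z := by
    rw [← hp]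
    ring
  rw [h6, h7] at T2
  rw [h5] at T1
  have hc : (#(N0 \ ∅) : ℝ) + #(E \ N0) + #(Q \ E) = k + 1 := by
    have c1 : #(N0 \ ∅) = #N0 := by simp
    have c2 : #(E \ N0) + #N0 = #E := Finset.card_sdiff_add_card_eq_card hN0E
    have c3 : #(Q \ E) + #E = #Q := Finset.card_sdiff_add_card_eq_card hEQ
    have c4 : #(N0 \ ∅) + #(E \ N0) + #(Q \ E) = k + 1 := by omega
    exact_mod_cast c4
  simp only [Complex.sub_re] at T1 T2 T3
  linarith

theorem stepE (h : Hyp V k) (G : SimpleGraph V) {Q : Finset V} (hQ : #Q = k + 1) {Z : ℂ}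
    (hZ : (k : ℝ) + 1 ≤ Z.re) (hi : 0 ≤ Z.im) {x : V} (hx : x ∈ Q) (C : Finset V) :
    0 ≤ (Z * pv G Q (Z - 1) / pv (J G x C) Q Z).im := by
  have hR : #(Q.erase x) = k := by rw [Finset.card_erase_of_mem hx, hQ]; rfl
  have hZ1 : (k : ℝ) ≤ (Z - 1).re := by
    simp only [Complex.sub_re, Complex.one_re]; linarith
  have hi1 : 0 ≤ (Z - 1).im := by
    simp only [Complex.sub_im, Complex.one_im]; linarith
  rw [pv_J G hx, pv_erase G hx]
  set R := Q.erase x with hRdef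
  set N0 := R.filter (G.Adj x) with hN0
  have hER : N0 ∪ (C ∩ R) ⊆ R :=
    Finset.union_subset (Finset.filter_subset _ _) Finset.inter_subset_right
  have h1 := (h G R hR (Z - 1) hZ1 hi1).2.1 N0 (Finset.filter_subset _ _)
  have hne := (h G R hR (Z - 1) hZ1 hi1).1
  have h2 := stepB h G hR hZ hi hER
  have h3 : Q1 (fv G R (N0 ∪ (C ∩ R)) Z / fv G R R Z)⁻¹ := Q4.inv ⟨by linarith [h2.1], h2.2⟩
  have h4 := h1.mul_im h3
  have h5 : fv G R N0 (Z - 1) / pv G R (Z - 1) * (fv G R (N0 ∪ (C ∩ R)) Z / fv G R R Z)⁻¹ =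
      Z * fv G R N0 (Z - 1) / fv G R (N0 ∪ (C ∩ R)) Z := by
    rw [inv_div, fv_self]
    have hne2 := fv_ne h G hR hZ hi hER
    field_simp
  rw [h5] at h4
  exact h4

theorem conj_im (r κ : ℂ) :
    (r * (starRingEnd ℂ) κ).im = r.im * κ.re - r.re * κ.im := by
  rw [Complex.mul_im, Complex.conj_re, Complex.conj_im]
  ring

/-- the key inequality: the complementary probability lies clockwise of `r` -/
theorem kappa (h : Hyp V k) (G : SimpleGraph V) {Q : Finset V} (hQ : #Q = k + 1) {Z : ℂ}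
    (hZ : (k : ℝ) + 1 ≤ Z.re) (hi : 0 ≤ Z.im) {u : V} (hu : u ∈ Q) (D : Finset V) :
    0 ≤ ((Z * pv G Q (Z - 1) / pv G Q Z) *
      (starRingEnd ℂ) (1 - pv (J G u D) Q Z / pv G Q Z)).im := by
  have hR : #(Q.erase u) = k := by rw [Finset.card_erase_of_mem hu, hQ]; rfl
  have hZ1 : (k : ℝ) ≤ (Z - 1).re := by
    simp only [Complex.sub_re, Complex.one_re]; linarith
  have hi1 : 0 ≤ (Z - 1).im := by
    simp only [Complex.sub_im, Complex.one_im]; linarith
  have hA : pv G Q Z ≠ 0 := level_ne h G hQ hZ hi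
  have hp : ∀ W, pv G Q W = fv G (Q.erase u) ((Q.erase u).filter (G.Adj u)) W :=
    fun W => pv_erase G hu W
  have hJ := pv_J G hu D Z
  set R := Q.erase u with hRdef
  set N0 := R.filter (G.Adj u) with hN0
  have hER : N0 ∪ (D ∩ R) ⊆ R :=
    Finset.union_subset (Finset.filter_subset _ _) Finset.inter_subset_right
  set r := Z * pv G Q (Z - 1) / pv G Q Z with hr
  have T := tele (fun C => fv G R C Z / pv G Q Z) (fun _ z => 0 ≤ (r * (starRingEnd ℂ) z).im)
    (by simp) (by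
      intro n a b ha hb
      rw [map_add, mul_add, Complex.add_im]
      exact add_nonneg ha hb) (C1 := N0) (C2 := N0 ∪ (D ∩ R)) Finset.subset_union_left (by
      intro t ht D' _ _ htD
      show 0 ≤ (r * (starRingEnd ℂ)
        (fv G R D' Z / pv G Q Z - fv G R (insert t D') Z / pv G Q Z)).im
      rw [fv_insert G R D' (hER ht) htD]
      have h2 : (fv G R (insert t D') Z + pv (J G t D') R Z) / pv G Q Z -
          fv G R (insert t D') Z / pv G Q Z = pv (J G t D') R Z / pv G Q Z := by ring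
      rw [h2]
      have x1 := (h G R hR (Z - 1) hZ1 hi1).2.1 N0 (Finset.filter_subset _ _)
      have xne := (h G R hR (Z - 1) hZ1 hi1).1
      have y1 := (h G R hR Z (by linarith) hi).2.2 t (hER ht) D'
      have yne := (h (J G t D') R hR Z (by linarith) hi).1
      have hxy := x1.mul_im y1
      have e : r = (pv (J G t D') R Z / pv G Q Z) *
          (fv G R N0 (Z - 1) / pv G R (Z - 1) *
            (Z * pv G R (Z - 1) / pv (J G t D') R Z)) := by
        rw [hr, hp (Z - 1)]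
        field_simp
      rw [e, mul_comm (pv (J G t D') R Z / pv G Q Z), mul_assoc, Complex.mul_conj,
        Complex.im_mul_ofReal]
      exact mul_nonneg hxy (Complex.normSq_nonneg _))
  have e2 : (1 - pv (J G u D) Q Z / pv G Q Z) =
      fv G R N0 Z / pv G Q Z - fv G R (N0 ∪ (D ∩ R)) Z / pv G Q Z := by
    rw [← hJ, ← hp, div_self hA]
  rw [e2]
  exact T

theorem stepF (h : Hyp V k) (G : SimpleGraph V) {Q : Finset V} (hQ : #Q = k + 1) {Z : ℂ}
    (hZ : (k : ℝ) + 1 ≤ Z.re) (hi : 0 ≤ Z.im) {C : Finset V} (hC : C ⊆ Q) :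
    Q1 (fv G Q C Z / pv G Q Z) := by
  have hA : pv G Q Z ≠ 0 := level_ne h G hQ hZ hi
  have hr1 : 0 ≤ (Z * pv G Q (Z - 1) / pv G Q Z).re ∧ 0 ≤ (Z * pv G Q (Z - 1) / pv G Q Z).im := by
    obtain ⟨s, hs⟩ : Q.Nonempty := by
      rw [← Finset.card_pos, hQ]; omega
    have h1 : pv (J G s ∅) Q Z = pv G Q Z := by
      apply pv_congr
      intro a _ b _
      simp [J_adj]
    have h2 := stepD h G hQ hZ hi hs ∅
    have h3 := stepE h G hQ hZ hi hs ∅
    rw [h1] at h2 h3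
    exact ⟨by linarith, h3⟩
  have hκ := fun (u : V) (hu : u ∈ Q) (D : Finset V) => kappa h G hQ hZ hi hu D
  set r := Z * pv G Q (Z - 1) / pv G Q Z with hr
  have hrQ : fv G Q Q Z / pv G Q Z = r := by rw [fv_self]
  have T := tele (fun C => fv G Q C Z / pv G Q Z)
    (fun n z => 0 ≤ (r * (starRingEnd ℂ) ((n : ℂ) - z)).im ∧ 0 ≤ ((n : ℂ) - z).re ∧
      (((n : ℂ) - z).re = 0 → (n : ℂ) - z = 0)) (by simp) (by
      intro n a b ha hb
      have e : ((n + 1 : ℕ) : ℂ) - (a + b) = ((n : ℂ) - a) + (((1 : ℕ) : ℂ) - b) := by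
        push_cast; ring
      rw [e]
      refine ⟨?_, ?_, ?_⟩
      · rw [map_add, mul_add, Complex.add_im]
        exact add_nonneg ha.1 hb.1
      · rw [Complex.add_re]
        exact add_nonneg ha.2.1 hb.2.1
      · intro h0
        rw [Complex.add_re] at h0
        have h1 := ha.2.1
        have h2 := hb.2.1
        rw [ha.2.2 (by linarith), hb.2.2 (by linarith), add_zero]) hC (by
      intro t ht D _ _ htD
      show 0 ≤ (r * (starRingEnd ℂ) (((1 : ℕ) : ℂ) -
        (fv G Q D Z / pv G Q Z - fv G Q (insert t D) Z / pv G Q Z))).im ∧ _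
      rw [fv_insert G Q D ht htD]
      have h2 : (fv G Q (insert t D) Z + pv (J G t D) Q Z) / pv G Q Z -
          fv G Q (insert t D) Z / pv G Q Z = pv (J G t D) Q Z / pv G Q Z := by ring
      rw [h2, Nat.cast_one]
      have hD := (level_Dk h G hQ hZ hi ht D).one_sub
      exact ⟨hκ t ht D, hD.re_nonneg, hD.eq_zero⟩)
  simp only [hrQ] at T
  have T1 := re_diff_le h G hQ hZ hi (Finset.empty_subset C) hC
  have h5 : fv G Q ∅ Z / pv G Q Z = Z := by
    rw [fv_empty]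
    field_simp
  rw [h5, Finset.sdiff_empty, Complex.sub_re] at T1
  have hc : (#(Q \ C) : ℝ) + #C = k + 1 := by
    have c3 : #(Q \ C) + #C = #Q := Finset.card_sdiff_add_card_eq_card hC
    rw [hQ] at c3
    exact_mod_cast c3
  have hcC : (0 : ℝ) ≤ #(Q \ C) := Nat.cast_nonneg _
  set f := fv G Q C Z / pv G Q Z with hf
  obtain ⟨t1, t2, t3⟩ := T
  rw [conj_im] at t1
  have e1 : ((#(Q \ C) : ℂ) - (f - r)).re = #(Q \ C) - f.re + r.re := by
    simp only [Complex.sub_re, Complex.natCast_re]; ring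
  have e2 : ((#(Q \ C) : ℂ) - (f - r)).im = r.im - f.im := by
    simp only [Complex.sub_im, Complex.natCast_im]; ring
  rw [e1, e2] at t1
  rw [e1] at t2 t3
  refine ⟨by linarith, ?_⟩
  have h6 : 0 ≤ r.re - (#(Q \ C) - f.re + r.re) := by linarith
  rcases eq_or_lt_of_le hr1.1 with h7 | h7
  · have h8 := t3 (by linarith)
    have h9 : r.im - f.im = 0 := by rw [← e2, h8]; simp
    linarith [hr1.2]
  · have h8 : 0 ≤ r.im * (r.re - (#(Q \ C) - f.re + r.re)) := mul_nonneg hr1.2 h6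
    have h9 : 0 ≤ r.re * f.im := by nlinarith
    exact nonneg_of_mul_nonneg_right h9 h7

theorem hyp_succ (h : Hyp V k) : Hyp V (k + 1) := by
  intro G Q hQ Z hZ hi
  push_cast at hZ
  refine ⟨level_ne h G hQ hZ hi, fun C hC => stepF h G hQ hZ hi hC, fun s hs C => ⟨?_, ?_⟩⟩
  · have := stepD h G hQ hZ hi hs C
    linarith
  · exact stepE h G hQ hZ hi hs C

theorem hyp_zero : Hyp V 0 := by
  intro G Q hQ Z hZ hi
  rw [Finset.card_eq_zero] at hQ
  subst hQ
  refine ⟨by rw [pv_empty]; exact one_ne_zero, fun C hC => ?_, fun s hs => ?_⟩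
  · rw [Finset.subset_empty.1 hC, fv_empty, pv_empty]
    simp only [mul_one, div_one]
    exact ⟨by simpa using hZ, hi⟩
  · exact absurd hs (Finset.notMem_empty s)

theorem hyp_all (k : ℕ) : Hyp V k := by
  induction k with
  | zero => exact hyp_zero
  | succ k ih => exact hyp_succ ih

/-- Zero-free region: `G[Q]` not complete, `Re Z ≥ |Q| - 1`, upper half plane. -/
theorem pv_ne_zero (G : SimpleGraph V) {Q : Finset V} {x y : V} (hx : x ∈ Q) (hy : y ∈ Q)
    (hxy : x ≠ y) (hadj : ¬ G.Adj x y) {Z : ℂ} (hZ : (#Q : ℝ) - 1 ≤ Z.re) (hi : 0 ≤ Z.im) :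
    pv G Q Z ≠ 0 := by
  have hyR : y ∈ Q.erase x := Finset.mem_erase.2 ⟨hxy.symm, hy⟩
  have hcard : #(Q.erase x) + 1 = #Q := Finset.card_erase_add_one hx
  obtain ⟨k, hk⟩ : ∃ k, #(Q.erase x) = k + 1 := by
    have : 0 < #(Q.erase x) := Finset.card_pos.2 ⟨y, hyR⟩
    exact ⟨#(Q.erase x) - 1, by omega⟩
  have hZ' : (k : ℝ) + 1 ≤ Z.re := by
    have : (#Q : ℝ) = k + 1 + 1 := by rw [← hcard, hk]; push_cast; ring
    linarith
  have h := hyp_all (V := V) k
  rw [pv_erase G hx]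
  have hsub : (Q.erase x).filter (G.Adj x) ⊆ Q.erase x := Finset.filter_subset _ _
  have T1 := re_diff_le h G hk hZ' hi (Finset.empty_subset _) hsub
  have hA : pv G (Q.erase x) Z ≠ 0 := level_ne h G hk hZ' hi
  have h5 : fv G (Q.erase x) ∅ Z / pv G (Q.erase x) Z = Z := by
    rw [fv_empty]
    field_simp
  rw [h5, Finset.sdiff_empty, Complex.sub_re] at T1
  have hlt : #((Q.erase x).filter (G.Adj x)) < k + 1 := by
    rw [← hk]
    apply Finset.card_lt_card
    refine ⟨hsub, fun hh => hadj ?_⟩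
    exact (Finset.mem_filter.1 (hh hyR)).2
  have hlt' : (#((Q.erase x).filter (G.Adj x)) : ℝ) + 1 ≤ k + 1 := by exact_mod_cast hlt
  intro h0
  rw [h0] at T1
  simp only [zero_div, Complex.zero_re, sub_zero] at T1
  linarith

end Pool.Agent.Work.MP_1e1ce6_co.Brown
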